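import Pool.Agent.W375.SM.C1
import Pool.Agent.W425.SG.Defs

set_option autoImplicit false

/-! SG-C1: adapted coordinates and the lattice index, for cones with `J ⊆ minSet v σ` and
affinely independent `v_j`, `j ∈ J` (generalisation of `Pool.Agent.W375.SM.taskC1`). -/

namespace Pool.Agent.W333.SG

open MvPolynomial Pool.Agent.H628R4.TZ Pool.Agent.H628R4.TP MeasureTheory Filter Topology
open Pool.Agent.W425.SM Pool.Agent.W425.SG Pool.Agent.W375.SM

lemma rows_indepJ {r N : ℕ} (v : Fin r → Fin N → ℕ) (J : Finset (Fin r)) (hv : IndJ v J) :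
    LinearIndependent ℚ ((Mx v J).map (fun x : ℤ => (x : ℚ))).row := by
  classical
  rw [Fintype.linearIndependent_iff]
  intro g hg
  have h0 := congrFun hg 0
  simp only [Finset.sum_apply, Pi.smul_apply, smul_eq_mul, Pi.zero_apply, Matrix.row_apply,
    Matrix.map_apply, Mx_zero] at h0
  have h1 : ∀ i : Fin N, ∑ j : J, g j * (v j i : ℚ) = 0 := by
    intro i
    have h2 := congrFun hg i.succ
    simp only [Finset.sum_apply, Pi.smul_apply, smul_eq_mul, Pi.zero_apply, Matrix.row_apply,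
      Matrix.map_apply, Mx_succ] at h2
    simpa using h2
  have h0' : ∑ j : J, g j = 0 := by
    push_cast at h0
    simp only [mul_neg, mul_one, Finset.sum_neg_distrib, neg_eq_zero] at h0
    exact h0
  unfold IndJ at hv
  rw [affineIndependent_iff] at hv
  have key := hv Finset.univ g h0' ?_
  · intro j
    exact key j (Finset.mem_univ j)
  · ext i
    rw [Finset.sum_apply, Pi.zero_apply, ← h1 i]
    refine Finset.sum_congr rfl fun j _ => ?_
    simp

lemma exists_rinvJ {r N : ℕ} (v : Fin r → Fin N → ℕ) (J : Finset (Fin r)) (hv : IndJ v J) :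
    ∃ P : Matrix (Fin (N+1)) J ℝ, MR v J * P = 1 := by
  classical
  set MQ : Matrix J (Fin (N+1)) ℚ := (Mx v J).map (fun x : ℤ => (x : ℚ)) with hMQ
  have h1 : MQ.rank = Fintype.card J := (rows_indepJ v J hv).rank_matrix
  have h2 : Function.Surjective MQ.mulVec := by
    have h3 : LinearMap.range MQ.mulVecLin = ⊤ := by
      apply Submodule.eq_top_of_finrank_eq
      rw [Module.finrank_fintype_fun_eq_card, ← h1, Matrix.rank]
    exact LinearMap.range_eq_top.mp h3
  obtain ⟨P, hP⟩ := Matrix.mulVec_surjective_iff_exists_right_inverse.mp h2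
  refine ⟨P.map (fun x : ℚ => (x : ℝ)), ?_⟩
  have h4 := congrArg (fun A : Matrix J J ℚ => A.map (Rat.castHom ℝ)) hP
  simp only [Matrix.map_mul] at h4
  have h5 : (1 : Matrix J J ℚ).map (Rat.castHom ℝ) = 1 := Matrix.map_one _ (by simp) (by simp)
  rw [h5] at h4
  rw [← h4]
  congr 1

lemma exists_coordJ {r N : ℕ} (v : Fin r → Fin N → ℕ) (J : Finset (Fin r)) (hv : IndJ v J) :
    ∃ (d : ℕ) (Θ : ((J → ℝ) × (Fin d → ℝ)) ≃ₗ[ℝ] (Fin (N+1) → ℝ)), d + J.card = N + 1 ∧
      ∀ (z : J → ℝ) (a : Fin d → ℝ), Al v J (Θ (z, a)) = z := by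
  classical
  obtain ⟨P, hP⟩ := exists_rinvJ v J hv
  set d := Module.finrank ℝ (LinearMap.ker (Al v J)) with hd
  let b := Module.finBasis ℝ (LinearMap.ker (Al v J))
  let κ : (Fin d → ℝ) ≃ₗ[ℝ] LinearMap.ker (Al v J) := b.equivFun.symm
  let T : ((J → ℝ) × (Fin d → ℝ)) →ₗ[ℝ] (Fin (N+1) → ℝ) :=
    LinearMap.coprod P.mulVecLin ((LinearMap.ker (Al v J)).subtype ∘ₗ κ.toLinearMap)
  have hT : ∀ z a, T (z, a) = P.mulVec z + (κ a : Fin (N+1) → ℝ) := fun z a => rfl
  have hAP : ∀ z : J → ℝ, Al v J (P.mulVec z) = z := by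
    intro z
    rw [Al, Matrix.mulVecLin_apply, Matrix.mulVec_mulVec, hP, Matrix.one_mulVec]
  have hAT : ∀ z a, Al v J (T (z, a)) = z := by
    intro z a
    rw [hT, map_add, hAP, (LinearMap.mem_ker.mp (κ a).2), add_zero]
  have hinj : Function.Injective T := by
    rw [← LinearMap.ker_eq_bot, LinearMap.ker_eq_bot']
    rintro ⟨z, a⟩ h
    have h1 : z = 0 := by rw [← hAT z a, h, map_zero]
    subst h1
    rw [hT, Matrix.mulVec_zero, zero_add] at h
    have h2 : κ a = 0 := Subtype.ext h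
    have h3 : a = 0 := by simpa using h2
    rw [h3]; rfl
  have hsurj : Function.Surjective T := by
    intro x
    have h1 : x - P.mulVec (Al v J x) ∈ LinearMap.ker (Al v J) := by
      rw [LinearMap.mem_ker, map_sub, hAP, sub_self]
    refine ⟨(Al v J x, κ.symm ⟨_, h1⟩), ?_⟩
    rw [hT, LinearEquiv.apply_symm_apply]
    simp
  refine ⟨d, LinearEquiv.ofBijective T ⟨hinj, hsurj⟩, ?_, fun z a => ?_⟩
  · have h1 := (Al v J).finrank_range_add_finrank_ker
    have h2 : LinearMap.range (Al v J) = ⊤ := by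
      rw [LinearMap.range_eq_top]
      exact fun z => ⟨_, hAP z⟩
    rw [h2, finrank_top, Module.finrank_fintype_fun_eq_card, Module.finrank_fintype_fun_eq_card,
      Fintype.card_coe, Fintype.card_fin] at h1
    omega
  · exact hAT z a

lemma exists_adaptJ {r N : ℕ} (v : Fin r → Fin N → ℕ) (J : Finset (Fin r)) (hv : IndJ v J) :
    ∃ (d : ℕ) (Θ : ((J → ℝ) × (Fin d → ℝ)) ≃ₗ[ℝ] (Fin (N+1) → ℝ)) (θ : ENNReal),
      Measure.map Θ.symm volume = θ • volume ∧ Adapt v J d Θ θ.toReal ∧ θ ≠ ⊤ ∧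
      ∀ (z : J → ℝ) (a : Fin d → ℝ), Al v J (Θ (z, a)) = z := by
  obtain ⟨d, Θ, h1, h2⟩ := exists_coordJ v J hv
  have : (volume : Measure ((J → ℝ) × (Fin d → ℝ))).IsAddHaarMeasure :=
    Measure.prod.instIsAddHaarMeasure _ _
  obtain ⟨θ, t1, t2, t3⟩ := exists_factor (volume : Measure (Fin (N+1) → ℝ))
    (volume : Measure ((J → ℝ) × (Fin d → ℝ))) Θ.symm
  refine ⟨d, Θ, θ, t3, ⟨ENNReal.toReal_pos t1 t2, h1, ?_, ?_⟩, t2, h2⟩
  · intro z a j
    rw [← Al_apply, h2]
  · intro g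
    have := integral_factor _ _ Θ.symm θ t3 (fun p => g (Θ p))
    simpa using this

section frame

variable {r N : ℕ} (v : Fin r → Fin N → ℕ) (J : Finset (Fin r)) (σ : Finset (Fin N → ℕ))
  (Bm : Matrix (Fin (N+1)) (Fin (N+1)) ℤ) (e : J ⊕ σ ≃ Fin (N+1))

lemma MxrhoZJ (hJ : J ⊆ minSet v σ) (ρ : σ) : (Mx v J).mulVec (rhoZ v ρ) = 0 := by
  funext j
  have h1 : (j : Fin r) ∈ minSet v σ := hJ j.2
  rw [minSet, Finset.mem_filter] at h1
  have h2 := h1.2 ρ ρ.2
  simp only [Matrix.mulVec, dotProduct, Fin.sum_univ_succ, Mx_zero, Mx_succ, rhoZ, Fin.cons_zero,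
    Fin.cons_succ, Pi.zero_apply]
  rw [← h2]
  push_cast
  have h3 : ∑ i : Fin N, (v j i : ℤ) * (((ρ : Fin N → ℕ) i : ℕ) : ℤ) =
    ∑ i : Fin N, (((ρ : Fin N → ℕ) i : ℕ) : ℤ) * (v j i : ℤ) :=
    Finset.sum_congr rfl fun i _ => mul_comm _ _
  rw [h3]
  ring

lemma Al_UmJ (hJ : J ⊆ minSet v σ) (he : ∀ ρ : σ, Bm (e (Sum.inr ρ)) = rhoZ v ρ)
    (p : (J → ℝ) × (σ → ℝ)) :
    Al v J (Um J σ Bm e p) = ((Hm v J σ Bm e).map (fun x : ℤ => (x : ℝ))).mulVec p.1 := by
  have h0 : ∀ (x : Fin (N+1) → ℤ) (j : J), (MR v J).mulVec (fun l => (x l : ℝ)) j =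
      (((Mx v J).mulVec x j : ℤ) : ℝ) := by
    intro x j
    simp [MR, Matrix.mulVec, dotProduct]
  have h1 : Um J σ Bm e p = ∑ j : J, p.1 j • (fun l => (Bm (e (Sum.inl j)) l : ℝ)) +
      ∑ ρ : σ, p.2 ρ • (fun l => (Bm (e (Sum.inr ρ)) l : ℝ)) := by
    funext l
    rw [Um_apply, Pi.add_apply, Finset.sum_apply, Finset.sum_apply]
    congr 1
    · exact Finset.sum_congr rfl fun j _ => by simp [mul_comm]
    · exact Finset.sum_congr rfl fun j _ => by simp [mul_comm]
  rw [h1, map_add, map_sum, map_sum]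
  have h2 : ∑ ρ : σ, Al v J (p.2 ρ • (fun l => (Bm (e (Sum.inr ρ)) l : ℝ))) = 0 := by
    apply Finset.sum_eq_zero
    intro ρ _
    rw [map_smul, Al, Matrix.mulVecLin_apply]
    have : (MR v J).mulVec (fun l => (Bm (e (Sum.inr ρ)) l : ℝ)) = 0 := by
      funext j
      rw [h0, he, MxrhoZJ v J σ hJ]
      simp
    rw [this, smul_zero]
  rw [h2, add_zero]
  funext j
  rw [Finset.sum_apply]
  simp only [Matrix.mulVec, dotProduct, Matrix.map_apply]
  refine Finset.sum_congr rfl fun j' _ => ?_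
  rw [map_smul, Al, Matrix.mulVecLin_apply, Pi.smul_apply, h0, smul_eq_mul, mul_comm]
  rfl

lemma det_Hm_neJ (hv : IndJ v J) (hB : IsUnit Bm.det) (hJ : J ⊆ minSet v σ)
    (he : ∀ ρ : σ, Bm (e (Sum.inr ρ)) = rhoZ v ρ) : (Hm v J σ Bm e).det ≠ 0 := by
  classical
  obtain ⟨P, hP⟩ := exists_rinvJ v J hv
  have h1 : Function.Surjective ((Hm v J σ Bm e).map (fun x : ℤ => (x : ℝ))).mulVec := by
    intro z
    obtain ⟨p, hp⟩ := (Ul_bij J σ Bm e hB).2 (P.mulVec z)
    refine ⟨p.1, ?_⟩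
    rw [← Al_UmJ v J σ Bm e hJ he, ← Ul_apply, hp, Al, Matrix.mulVecLin_apply,
      Matrix.mulVec_mulVec, hP, Matrix.one_mulVec]
  rw [Matrix.mulVec_surjective_iff_isUnit, Matrix.isUnit_iff_isUnit_det] at h1
  intro h
  have h2 : ((Hm v J σ Bm e).map (fun x : ℤ => (x : ℝ))).det = ((Hm v J σ Bm e).det : ℝ) :=
    (RingHom.map_det (Int.castRingHom ℝ) _).symm
  rw [h2, h] at h1
  simp at h1

lemma idx_eqJ (hB : IsUnit Bm.det) (hJ : J ⊆ minSet v σ)
    (he : ∀ ρ : σ, Bm (e (Sum.inr ρ)) = rhoZ v ρ) (hdet : (Hm v J σ Bm e).det ≠ 0) :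
    idx v J = (Hm v J σ Bm e).det.natAbs := by
  classical
  set H := Hm v J σ Bm e with hH
  have hev : ∀ p : (Fin N → ℤ) × ℤ, evalHom v J p = (Mx v J).mulVec (Fin.cons (-p.2) p.1) := by
    intro p
    funext j
    simp only [evalHom, AddMonoidHom.coe_mk, ZeroHom.coe_mk, Matrix.mulVec, dotProduct,
      Fin.sum_univ_succ, Mx_zero, Mx_succ, Fin.cons_zero, Fin.cons_succ]
    rw [neg_mul_neg, one_mul, add_comm]
    congr 1
    exact Finset.sum_congr rfl fun i _ => mul_comm _ _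
  have hrange : (evalHom v J).range = (LinearMap.range (Matrix.toLin' H)).toAddSubgroup := by
    ext y
    simp only [AddMonoidHom.mem_range, Submodule.mem_toAddSubgroup, LinearMap.mem_range]
    constructor
    · rintro ⟨p, rfl⟩
      -- write the vector in the basis of rows of `Bm`
      set x : Fin (N+1) → ℤ := Fin.cons (-p.2) p.1 with hx
      obtain ⟨u, hu⟩ : ∃ u : Fin (N+1) → ℤ, Bm.transpose.mulVec u = x := by
        have hT : IsUnit Bm.transpose := by
          rw [Matrix.isUnit_iff_isUnit_det, Matrix.det_transpose]; exact hB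
        exact Matrix.mulVec_surjective_iff_isUnit.mpr hT x
      refine ⟨fun j => u (e (Sum.inl j)), ?_⟩
      rw [hev, ← hx, ← hu, Matrix.toLin'_apply]
      have h1 : Bm.transpose.mulVec u = ∑ s : J ⊕ σ, u (e s) • Bm (e s) := by
        rw [e.sum_comp (fun k => u k • Bm k)]
        funext l
        simp [Matrix.mulVec, dotProduct, mul_comm]
      rw [h1, Fintype.sum_sum_type, Matrix.mulVec_add]
      have h2 : (Mx v J).mulVec (∑ ρ : σ, u (e (Sum.inr ρ)) • Bm (e (Sum.inr ρ))) = 0 := by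
        rw [← Matrix.mulVecLin_apply, map_sum]
        apply Finset.sum_eq_zero
        intro ρ _
        rw [map_smul, he, Matrix.mulVecLin_apply, MxrhoZJ v J σ hJ, smul_zero]
      rw [h2, add_zero, ← Matrix.mulVecLin_apply (Mx v J), map_sum]
      funext j
      rw [Finset.sum_apply]
      simp only [Matrix.mulVec, dotProduct]
      refine Finset.sum_congr rfl fun j' _ => ?_
      rw [map_smul, Matrix.mulVecLin_apply, Pi.smul_apply, smul_eq_mul, mul_comm, hH]
      rfl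
    · rintro ⟨z, rfl⟩
      set x : Fin (N+1) → ℤ := ∑ j : J, z j • Bm (e (Sum.inl j)) with hx
      refine ⟨(fun i => x i.succ, - x 0), ?_⟩
      rw [hev]
      have h3 : (Fin.cons (- -x 0) (fun i : Fin N => x i.succ) : Fin (N+1) → ℤ) = x := by
        funext l
        refine Fin.cases ?_ (fun i => ?_) l
        · simp
        · simp
      simp only [h3]
      rw [hx, ← Matrix.mulVecLin_apply (Mx v J), map_sum, Matrix.toLin'_apply]
      funext j
      rw [Finset.sum_apply]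
      simp only [Matrix.mulVec, dotProduct]
      refine Finset.sum_congr rfl fun j' _ => ?_
      rw [map_smul, Matrix.mulVecLin_apply, Pi.smul_apply, smul_eq_mul, mul_comm, hH]
      rfl
  have hinj : Function.Injective (Matrix.toLin' H) := by
    rw [← LinearMap.ker_eq_bot]
    exact Matrix.ker_toLin'_eq_bot_iff.mpr (fun w hw => Matrix.eq_zero_of_mulVec_eq_zero hdet hw)
  have key := Submodule.natAbs_det_equiv (LinearMap.range (Matrix.toLin' H))
    (LinearEquiv.ofInjective (Matrix.toLin' H) hinj)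
  rw [idx, hrange]
  have h4 : (LinearMap.range (Matrix.toLin' H)).subtype ∘ₗ AddMonoidHom.toIntLinearMap
      ((LinearEquiv.ofInjective (Matrix.toLin' H) hinj : (J → ℤ) ≃ₗ[ℤ] _) :
        (J → ℤ) →+ LinearMap.range (Matrix.toLin' H)) = Matrix.toLin' H := by
    ext x; rfl
  rw [h4, LinearMap.det_toLin'] at key
  rw [key]
  rfl

end frame

theorem taskC1 : Pool.Agent.W425.SG.TaskC1 := by
  classical
  intro r N v R J hv hJne
  obtain ⟨d, Θ, θ, hθ, had, hθt, hA⟩ := exists_adaptJ v J hv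
  refine ⟨d, Θ, θ.toReal, had, ?_⟩
  intro σ hσ hJ hcard F
  obtain ⟨Bm, e, hB, he⟩ := exists_frame v R J σ hσ hcard
  have hdet := det_Hm_neJ v J σ Bm e hv hB hJ he
  have hidx := idx_eqJ v J σ Bm e hB hJ he hdet
  set H := Hm v J σ Bm e with hH
  set HR : Matrix J J ℝ := H.map (fun x : ℤ => (x : ℝ)) with hHR
  have hdetR : HR.det = (H.det : ℝ) := (RingHom.map_det (Int.castRingHom ℝ) _).symm
  have hdetR0 : HR.det ≠ 0 := by rw [hdetR]; exact_mod_cast hdet
  have hAU : ∀ p, Al v J (Ul J σ Bm e p) = HR.mulVec p.1 := fun p => Al_UmJ v J σ Bm e hJ he p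
  have hA' : ∀ x : Fin (N+1) → ℝ, (Θ.symm x).1 = Al v J x := by
    intro x
    have := hA (Θ.symm x).1 (Θ.symm x).2
    rw [Prod.mk.eta, LinearEquiv.apply_symm_apply] at this
    exact this.symm
  -- the map S
  let Sl : (σ → ℝ) →ₗ[ℝ] (Fin d → ℝ) :=
    LinearMap.snd ℝ _ _ ∘ₗ Θ.symm.toLinearMap ∘ₗ Ul J σ Bm e ∘ₗ LinearMap.inr ℝ _ _
  have hSl : ∀ c, Sl c = (Θ.symm (Ul J σ Bm e (0, c))).2 := fun c => rfl
  have hU0 : ∀ c, (Θ.symm (Ul J σ Bm e (0, c))).1 = 0 := by
    intro c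
    rw [hA', hAU]
    simp
  have hΘS : ∀ c, Θ (0, Sl c) = Ul J σ Bm e (0, c) := by
    intro c
    have h1 : ((0 : J → ℝ), Sl c) = Θ.symm (Ul J σ Bm e (0, c)) := Prod.ext (hU0 c).symm (hSl c)
    rw [h1, LinearEquiv.apply_symm_apply]
  have hinj : Function.Injective Sl := by
    rw [← LinearMap.ker_eq_bot, LinearMap.ker_eq_bot']
    intro c hc
    have h1 : Ul J σ Bm e (0, c) = 0 := by
      rw [← hΘS, hc]
      exact map_zero Θ
    have h2 : ((0 : J → ℝ), c) = 0 := (Ul_bij J σ Bm e hB).1 (by rw [h1, map_zero])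
    exact congrArg Prod.snd h2
  have hcd : Fintype.card σ = d := by
    have := had.dim
    rw [Fintype.card_coe]
    omega
  let S : (σ → ℝ) ≃ₗ[ℝ] (Fin d → ℝ) :=
    LinearEquiv.ofInjectiveOfFinrankEq Sl hinj (by
      rw [Module.finrank_fintype_fun_eq_card, Module.finrank_fintype_fun_eq_card, hcd,
        Fintype.card_fin])
  have hS : ∀ c, S c = Sl c := fun c => rfl
  obtain ⟨s, s1, s2, s3⟩ := exists_factor (volume : Measure (σ → ℝ))
    (volume : Measure (Fin d → ℝ)) S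
  -- the comparison of the factors
  have hfac : s = θ * ENNReal.ofReal |HR.det| := by
    let wl : (J → ℝ) →ₗ[ℝ] (Fin d → ℝ) :=
      LinearMap.snd ℝ _ _ ∘ₗ Θ.symm.toLinearMap ∘ₗ Ul J σ Bm e ∘ₗ LinearMap.inl ℝ _ _
    have hwl : ∀ z, wl z = (Θ.symm (Ul J σ Bm e (z, 0))).2 := fun c => rfl
    refine factor_block HR hdetR0 wl (LinearMap.continuous_of_finiteDimensional wl).measurable
      S s θ s3 ?_
    have h1 : (fun p : (J → ℝ) × (σ → ℝ) => (HR.mulVec p.1, wl p.1 + S p.2)) =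
        Θ.symm ∘ (Um J σ Bm e) := by
      funext p
      have h2 : p = (p.1, 0) + (0, p.2) := by simp
      refine Prod.ext ?_ ?_
      · simp only [Function.comp_apply]
        rw [hA', ← Ul_apply, hAU]
      · simp only [Function.comp_apply]
        rw [← Ul_apply]
        conv_rhs => rw [h2, map_add, map_add]
        rw [Prod.snd_add, hwl, hS, hSl]
    rw [h1, ← Measure.map_map (emb Θ.symm).measurable (mp_Um J σ Bm e hB).measurable,
      (mp_Um J σ Bm e hB).map_eq, hθ]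
  have hfacR : (s.toReal : ℝ) = θ.toReal * (idx v J : ℝ) := by
    rw [hfac, ENNReal.toReal_mul, ENNReal.toReal_ofReal (abs_nonneg _), hdetR, hidx,
      Nat.cast_natAbs]
    push_cast
    rfl
  -- the vector
  have hvec : ∀ c : σ → ℝ, Ul J σ Bm e (0, c) = ∑ ρ : σ, c ρ • rhoHat v (ρ : Fin N → ℕ) := by
    intro c
    funext l
    rw [Ul_apply, Um_apply, Finset.sum_apply]
    simp only [Pi.zero_apply, mul_zero, Finset.sum_const_zero, zero_add, Pi.smul_apply, smul_eq_mul]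
    refine Finset.sum_congr rfl fun ρ _ => ?_
    rw [he, rhoZ_cast, mul_comm]
  have hpre : S ⁻¹' (reg v Θ σ) = {c : σ → ℝ | ∀ ρ, 0 < c ρ} := by
    ext c
    simp only [Set.mem_preimage, reg, Set.mem_ofPred_eq]
    constructor
    · rintro ⟨c', hc', h⟩ ρ
      have h1 : ∑ ρ ∈ σ, c' ρ • rhoHat v ρ =
          ∑ ρ : σ, (fun ρ : σ => c' ρ) ρ • rhoHat v (ρ : Fin N → ℕ) :=
        (Finset.sum_coe_sort σ (fun ρ => c' ρ • rhoHat v ρ)).symm
      rw [hS, hΘS, h1, ← hvec] at h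
      have h2 := (Ul_bij J σ Bm e hB).1 h
      have h3 : c = fun ρ : σ => c' ρ := congrArg Prod.snd h2
      rw [h3]
      exact hc' ρ ρ.2
    · intro hc
      refine ⟨fun ρ => if h : ρ ∈ σ then c ⟨ρ, h⟩ else 0, fun ρ hρ => ?_, ?_⟩
      · simp only [hρ, dif_pos]
        exact hc _
      · rw [hS, hΘS, hvec, ← Finset.sum_coe_sort σ]
        refine Finset.sum_congr rfl fun ρ _ => ?_
        simp
  have key := setIntegral_factor (volume : Measure (σ → ℝ)) (volume : Measure (Fin d → ℝ)) S s s3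
    (reg v Θ σ) (fun a => F (Θ (0, a)))
  rw [hpre, hfacR] at key
  push_cast at key
  rw [← key]
  refine integral_congr_ae (Filter.Eventually.of_forall fun c => ?_)
  simp only
  rw [hS, hΘS, hvec]

end Pool.Agent.W333.SG
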